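import Mathlib
import Pool.Agent.Helpers.H19PFunDefs
import Pool.Agent.Helpers.H19PFun6

set_option autoImplicit false

open scoped NNReal

namespace Pool.Agent.Results.MP_0f714a_pr.TruncatedExponentials

open H19PF

/-- Every truncated exponential is a standard p-function; for all `l, τ > 0` it has a factor that
is not infinitely divisible; hence it lies in `I₀` exactly when `l * τ = 0`, and the proposed
statement (membership in `I₀` whenever `l * τ ≤ 1`) is false. -/
theorem result :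
    (∀ l τ : ℝ≥0, IsStandard (pTrunc l τ)) ∧
    (∀ l τ : ℝ≥0, 0 < l → 0 < τ → ∃ q : ℝ≥0 → ℝ, IsFactor q (pTrunc l τ) ∧ ¬ InfDiv q) ∧
    (∀ l τ : ℝ≥0, InI0 (pTrunc l τ) ↔ l * τ = 0) ∧
    ¬ (∀ l τ : ℝ≥0, l * τ ≤ 1 → InI0 (pTrunc l τ)) :=
  ⟨H19PF.main.1, H19PF.main.2.1, H19PF.main.2.2, fun h =>
    one_ne_zero ((mul_one (1 : ℝ≥0)).symm.trans
      ((H19PF.main.2.2 1 1).1 (h 1 1 (by rw [mul_one]))))⟩

end Pool.Agent.Results.MP_0f714a_pr.TruncatedExponentials
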